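import Pool.Agent.Helper60.FF.Moves

/-!
# The two supercharges
-/

set_option autoImplicit false

namespace Pool.Agent.Helper60.FF

open Pool.Agent.Helper2.Arb

variable {R : Type*} [CommRing R]

/-- Weight of a strand for the supercharges. -/
def Kw (s t : R) : Bool → R
  | true => s
  | false => t

/-- Sign of a state. -/
def sg : Bool → R
  | true => -1
  | false => 1

/-- First supercharge, on one strand. -/
def q1 (t : R) : Bool → Bool → R
  | true, true => 1
  | true, false => 0
  | false, true => 0
  | false, false => t

/-- Second supercharge, on one strand. -/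
def q2 (t : R) : Bool → Bool → R
  | true, true => 0
  | true, false => 1
  | false, true => -t
  | false, false => 0

/-- A supercharge, acting on functions of the states. -/
def qc (s t : R) (q : Bool → Bool → R) : List Bool → (List Bool → R) → List Bool → R
  | [], _, _ => 0
  | _ :: _, _, [] => 0
  | a :: D, f, i :: σ => q a i * f ((!i) :: σ) + Kw s t a * sg i * qc s t q D (fun τ => f (i :: τ)) σ

theorem qc_cons (s t : R) (q : Bool → Bool → R) (a : Bool) (D : List Bool) (f : List Bool → R) (i : Bool) (σ : List Bool) :
    qc s t q (a :: D) f (i :: σ) = q a i * f ((!i) :: σ) + Kw s t a * sg i * qc s t q D (fun τ => f (i :: τ)) σ := by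
  simp only [qc]

theorem qc_add (s t : R) (q : Bool → Bool → R) (D : List Bool) (f g : List Bool → R) (σ : List Bool) :
    qc s t q D (fun τ => f τ + g τ) σ = qc s t q D f σ + qc s t q D g σ := by
  induction D generalizing f g σ with
  | nil => simp [qc]
  | cons a D ih =>
    cases σ with
    | nil => simp [qc]
    | cons i σ =>
      rw [qc_cons, qc_cons, qc_cons, ih]
      ring

theorem qc_smul (s t : R) (q : Bool → Bool → R) (D : List Bool) (c : R) (f : List Bool → R) (σ : List Bool) :
    qc s t q D (fun τ => c * f τ) σ = c * qc s t q D f σ := by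
  induction D generalizing f σ with
  | nil => simp [qc]
  | cons a D ih =>
    cases σ with
    | nil => simp [qc]
    | cons i σ =>
      rw [qc_cons, qc_cons, ih]
      ring

theorem qc_zero (s t : R) (q : Bool → Bool → R) (D : List Bool) (σ : List Bool) : qc s t q D (fun _ => 0) σ = 0 := by
  have := qc_smul s t q D 0 (fun _ => 0) σ
  simpa using this

theorem qc_crs (s t : R) (q : Bool → Bool → R) (D : List Bool) (a b x i j : Bool) (G : Bool → Bool → List Bool → R) (σ : List Bool) :
    qc s t q D (fun τ => crs s t a b x i j fun u v => G u v τ) σ = crs s t a b x i j fun u v => qc s t q D (G u v) σ := by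
  have hn : ∀ (c : R) (f : List Bool → R), qc s t q D (fun τ => c * f τ) σ = c * qc s t q D f σ := fun c f => qc_smul s t q D c f σ
  cases a <;> cases b <;> cases x <;> cases i <;> cases j <;> simp only [crs, qc_add, hn]

/-- What is needed of a supercharge. -/
structure Super (s t : R) (q : Bool → Bool → R) : Prop where
  birth : ∀ (d : Bool) (D : List Bool) (f : List Bool → R) (σ : List Bool),
    ev0 s t (.birth d) D (qc s t q (d :: (!d) :: D) f) σ = qc s t q D (ev0 s t (.birth d) D f) σ
  death : ∀ (a : Bool) (D : List Bool) (f : List Bool → R) (i j : Bool) (σ : List Bool),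
    ev0 s t .death (a :: (!a) :: D) (qc s t q D f) (i :: j :: σ) = qc s t q (a :: (!a) :: D) (ev0 s t .death (a :: (!a) :: D) f) (i :: j :: σ)
  cross : ∀ (x a b : Bool) (D : List Bool) (f : List Bool → R) (i j : Bool) (σ : List Bool),
    ev0 s t (.cross x) (a :: b :: D) (qc s t q (b :: a :: D) f) (i :: j :: σ) =
      qc s t q (a :: b :: D) (ev0 s t (.cross x) (a :: b :: D) f) (i :: j :: σ)

theorem super_q1 (s t : R) (hst : s * t = 1) : Super s t (q1 t) where
  birth d D f σ := by
    have h1 : (ev0 s t (.birth d) D f) = fun τ => bw s d false * f (false :: false :: τ) + bw s d true * f (true :: true :: τ) := by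
      funext τ; simp only [ev0]
    rw [h1, qc_add, qc_smul, qc_smul]
    simp only [ev0, qc_cons]
    cases d <;> simp only [bw, Kw, sg, q1, Bool.not_true, Bool.not_false] <;> grind
  death a D f i j σ := by
    cases i <;> cases j
    · have h1 : (fun τ => ev0 s t .death (a :: (!a) :: D) f (false :: false :: τ)) = fun τ => dw t a false * f τ := by
        funext τ; simp [ev0]
      simp only [qc_cons, Bool.not_false, h1, qc_smul]
      cases a <;> simp [ev0, dw, Kw, sg, q1] <;> grind
    · have h1 : (fun τ => ev0 s t .death (a :: (!a) :: D) f (false :: true :: τ)) = fun τ => 0 := by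
        funext τ; simp [ev0]
      simp only [qc_cons, Bool.not_false, Bool.not_true, h1, qc_zero]
      cases a <;> simp [ev0, dw, Kw, sg, q1] <;> grind
    · have h1 : (fun τ => ev0 s t .death (a :: (!a) :: D) f (true :: false :: τ)) = fun τ => 0 := by
        funext τ; simp [ev0]
      simp only [qc_cons, Bool.not_false, Bool.not_true, h1, qc_zero]
      cases a <;> simp [ev0, dw, Kw, sg, q1] <;> grind
    · have h1 : (fun τ => ev0 s t .death (a :: (!a) :: D) f (true :: true :: τ)) = fun τ => dw t a true * f τ := by
        funext τ; simp [ev0]
      simp only [qc_cons, Bool.not_true, h1, qc_smul]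
      cases a <;> simp [ev0, dw, Kw, sg, q1] <;> grind
  cross x a b D f i j σ := by
    have h1 : ∀ i j : Bool, (fun τ => ev0 s t (.cross x) (a :: b :: D) f (i :: j :: τ)) =
        fun τ => crs s t a b x i j fun k l => f (k :: l :: τ) := fun i j => by funext τ; simp only [ev0]
    simp only [qc_cons, h1, qc_crs]
    simp only [ev0, qc_cons]
    cases a <;> cases b <;> cases x <;> cases i <;> cases j <;>
      simp only [crs, Kw, sg, q1, Bool.not_true, Bool.not_false] <;> grind

theorem super_q2 (s t : R) (hst : s * t = 1) : Super s t (q2 t) where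
  birth d D f σ := by
    have h1 : (ev0 s t (.birth d) D f) = fun τ => bw s d false * f (false :: false :: τ) + bw s d true * f (true :: true :: τ) := by
      funext τ; simp only [ev0]
    rw [h1, qc_add, qc_smul, qc_smul]
    simp only [ev0, qc_cons]
    cases d <;> simp only [bw, Kw, sg, q2, Bool.not_true, Bool.not_false] <;> grind
  death a D f i j σ := by
    cases i <;> cases j
    · have h1 : (fun τ => ev0 s t .death (a :: (!a) :: D) f (false :: false :: τ)) = fun τ => dw t a false * f τ := by
        funext τ; simp [ev0]
      simp only [qc_cons, Bool.not_false, h1, qc_smul]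
      cases a <;> simp [ev0, dw, Kw, sg, q2] <;> grind
    · have h1 : (fun τ => ev0 s t .death (a :: (!a) :: D) f (false :: true :: τ)) = fun τ => 0 := by
        funext τ; simp [ev0]
      simp only [qc_cons, Bool.not_false, Bool.not_true, h1, qc_zero]
      cases a <;> simp [ev0, dw, Kw, sg, q2] <;> grind
    · have h1 : (fun τ => ev0 s t .death (a :: (!a) :: D) f (true :: false :: τ)) = fun τ => 0 := by
        funext τ; simp [ev0]
      simp only [qc_cons, Bool.not_false, Bool.not_true, h1, qc_zero]
      cases a <;> simp [ev0, dw, Kw, sg, q2] <;> grind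
    · have h1 : (fun τ => ev0 s t .death (a :: (!a) :: D) f (true :: true :: τ)) = fun τ => dw t a true * f τ := by
        funext τ; simp [ev0]
      simp only [qc_cons, Bool.not_true, h1, qc_smul]
      cases a <;> simp [ev0, dw, Kw, sg, q2] <;> grind
  cross x a b D f i j σ := by
    have h1 : ∀ i j : Bool, (fun τ => ev0 s t (.cross x) (a :: b :: D) f (i :: j :: τ)) =
        fun τ => crs s t a b x i j fun k l => f (k :: l :: τ) := fun i j => by funext τ; simp only [ev0]
    simp only [qc_cons, h1, qc_crs]
    simp only [ev0, qc_cons]
    cases a <;> cases b <;> cases x <;> cases i <;> cases j <;>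
      simp only [crs, Kw, sg, q2, Bool.not_true, Bool.not_false] <;> grind

/-- A supercharge commutes with all events. -/
theorem Super.comm {s t : R} {q : Bool → Bool → R} (hq : Super s t q) (k : ℕ) (e : Kind) (D D' : List Bool)
    (h : act k e D = some D') (f : List Bool → R) (σ : List Bool) (hσ : σ.length = D.length) :
    ev s t k e D (qc s t q D' f) σ = qc s t q D (ev s t k e D f) σ := by
  induction k generalizing D D' f σ with
  | zero =>
    have h0 : ev s t 0 e D f = ev0 s t e D f := by funext τ; rw [ev_zero_pos]
    rw [ev_zero_pos, h0]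
    match e, D, σ, hσ, h with
    | .birth d, D, σ, hσ, h =>
      simp only [act, Kind.act, Option.some.injEq] at h
      subst h
      exact hq.birth d D f σ
    | .death, [], _, _, h => simp [act, Kind.act] at h
    | .death, [_], _, _, h => simp [act, Kind.act] at h
    | .death, a :: b :: D, i :: j :: σ, hσ, h =>
      simp only [act, Kind.act] at h
      split_ifs at h with hab
      simp only [Option.some.injEq] at h
      subst h hab
      exact hq.death a D f i j σ
    | .cross x, [], _, _, h => simp [act, Kind.act] at h
    | .cross x, [_], _, _, h => simp [act, Kind.act] at h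
    | .cross x, a :: b :: D, i :: j :: σ, hσ, h =>
      simp only [act, Kind.act, Option.some.injEq] at h
      subst h
      exact hq.cross x a b D f i j σ
  | succ k ih =>
    match D, σ, hσ, h with
    | [], _, _, h => simp [act] at h
    | a :: D, i :: σ, hσ, h =>
      rw [act_succ] at h
      obtain ⟨E, hE, rfl⟩ := Option.map_eq_some_iff.1 h
      have hl : σ.length = D.length := by simpa using hσ
      rw [ev_succ, qc_cons, ev_succ]
      have h1 : (fun τ => ev s t (k + 1) e (a :: D) f (i :: τ)) = ev s t k e D fun τ => f (i :: τ) := by
        funext τ; rw [ev_succ]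
      have h2 : (fun τ => qc s t q (a :: E) f (i :: τ)) =
          fun τ => q a i * f ((!i) :: τ) + Kw s t a * sg i * qc s t q E (fun τ => f (i :: τ)) τ := by
        funext τ; rw [qc_cons]
      rw [h1, h2, ev_add, ev_smul, ev_smul, ih D E hE _ σ hl]

/-- The value of a word that ends without strands. -/
def Z (s t : R) (w : Word) (D : List Bool) : List Bool → R := opw s t w D fun τ => if τ = [] then 1 else 0

/-- A supercharge kills the value of a word that ends without strands. -/
theorem Super.kill {s t : R} {q : Bool → Bool → R} (hq : Super s t q) (w : Word) (D : List Bool) (h : run D w = some []) (σ : List Bool)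
    (hσ : σ.length = D.length) : qc s t q D (Z s t w D) σ = 0 := by
  induction w generalizing D σ with
  | nil =>
    simp only [run, Option.some.injEq] at h
    subst h
    simp [qc]
  | cons p w ih =>
    obtain ⟨k, e⟩ := p
    rw [run_cons] at h
    obtain ⟨D1, hD1, h1⟩ := Option.bind_eq_some_iff.1 h
    have h2 : nx k e D = D1 := by simp [nx, hD1]
    have h3 : Z s t ((k, e) :: w) D = ev s t k e D (Z s t w D1) := by
      simp only [Z, opw, h2]
    rw [h3, ← hq.comm k e D D1 hD1 _ σ hσ, ev_congr s t k e D D1 hD1 _ (fun _ => 0) σ hσ fun τ hτ => ih D1 h1 τ hτ, ev_zero]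

end Pool.Agent.Helper60.FF
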