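import Pool.Agent.Helper60.FF.Charge

/-!
# A Conway polynomial exists
-/

set_option autoImplicit false

namespace Pool.Agent.Helper60.FF

open Pool.Agent.Helper2.Arb

variable {R : Type*} [CommRing R]

theorem opw_add (s t : R) (w : Word) (D : List Bool) (f g : List Bool → R) (σ : List Bool) :
    opw s t w D (fun τ => f τ + g τ) σ = opw s t w D f σ + opw s t w D g σ := by
  induction w generalizing D σ with
  | nil => simp [opw]
  | cons p w ih =>
    obtain ⟨k, e⟩ := p
    simp only [opw]
    have h : opw s t w (nx k e D) (fun τ => f τ + g τ) = fun τ => opw s t w (nx k e D) f τ + opw s t w (nx k e D) g τ := by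
      funext τ; exact ih _ τ
    rw [h, ev_add]

theorem opw_smul (s t : R) (w : Word) (D : List Bool) (c : R) (f : List Bool → R) (σ : List Bool) :
    opw s t w D (fun τ => c * f τ) σ = c * opw s t w D f σ := by
  induction w generalizing D σ with
  | nil => simp [opw]
  | cons p w ih =>
    obtain ⟨k, e⟩ := p
    simp only [opw]
    have h : opw s t w (nx k e D) (fun τ => c * f τ) = fun τ => c * opw s t w (nx k e D) f τ := by
      funext τ; exact ih _ τ
    rw [h, ev_smul]

/-- The values of two words which differ by a move. -/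
theorem Z_move (s t : R) (hst : s * t = 1) {l r : Word} (hm : Move l r) (u v : Word) (D : List Bool)
    (hl : run D (u ++ l ++ v) = some []) (hr : run D (u ++ r ++ v) = some []) (σ : List Bool) (hσ : σ.length = D.length) :
    Z s t (u ++ l ++ v) D σ = Z s t (u ++ r ++ v) D σ := by
  rw [List.append_assoc, run_append] at hl hr
  obtain ⟨E, hE, hl1⟩ := Option.bind_eq_some_iff.1 hl
  obtain ⟨E', hE', hr1⟩ := Option.bind_eq_some_iff.1 hr
  have hEE : E' = E := by rw [hE] at hE'; exact (Option.some.inj hE').symm
  subst hEE
  rw [run_append] at hl1 hr1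
  obtain ⟨El, hEl, hl2⟩ := Option.bind_eq_some_iff.1 hl1
  obtain ⟨Er, hEr, hr2⟩ := Option.bind_eq_some_iff.1 hr1
  obtain ⟨h1, h2⟩ := move_eqv s t hst hm E' El Er hEl hEr
  subst h1
  unfold Z
  rw [List.append_assoc, List.append_assoc, opw_append s t u (l ++ v) D E' hE, opw_append s t u (r ++ v) D E' hE,
    opw_append s t l v E' El hEl, opw_append s t r v E' El hEr]
  exact opw_congr s t u D E' hE _ _ σ hσ fun τ hτ => h2 _ τ hτ

theorem act_cross_same (k : ℕ) (x d : Bool) (E : List Bool) (h1 : E[k]? = some d) (h2 : E[k + 1]? = some d) :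
    act k (.cross x) E = some E := by
  induction k generalizing E with
  | zero =>
    match E, h1, h2 with
    | [], h1, _ => simp at h1
    | [_], _, h2 => simp at h2
    | a :: b :: E, h1, h2 =>
      simp at h1 h2
      subst h1 h2
      simp [act, Kind.act]
  | succ k ih =>
    match E, h1, h2 with
    | [], h1, _ => simp at h1
    | a :: E, h1, h2 =>
      rw [act_succ, ih E (by simpa using h1) (by simpa using h2)]
      simp

theorem ev_skein (s t : R) (k : ℕ) (d : Bool) (E : List Bool) (h1 : E[k]? = some d) (h2 : E[k + 1]? = some d)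
    (g : List Bool → R) (σ : List Bool) (hσ : σ.length = E.length) :
    ev s t k (.cross false) E g σ = ev s t k (.cross true) E g σ + (t - s) * g σ := by
  induction k generalizing E g σ with
  | zero =>
    match E, h1, h2, σ, hσ with
    | [], h1, _, _, _ => simp at h1
    | [_], _, h2, _, _ => simp at h2
    | a :: b :: E, h1, h2, i :: j :: σ, hσ =>
      simp at h1 h2
      subst h1 h2
      simp only [ev_zero_pos, ev0]
      cases b <;> cases i <;> cases j <;> simp only [crs] <;> ring
  | succ k ih =>
    match E, h1, h2, σ, hσ with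
    | [], h1, _, _, _ => simp at h1
    | a :: E, h1, h2, i :: σ, hσ =>
      rw [ev_succ, ev_succ]
      exact ih E (by simpa using h1) (by simpa using h2) _ σ (by simpa using hσ)

/-- The skein relation for the values. -/
theorem Z_skein (s t : R) (u v : Word) (D E : List Bool) (hu : run D u = some E) (k : ℕ) (d : Bool) (h1 : E[k]? = some d)
    (h2 : E[k + 1]? = some d) (σ : List Bool) (hσ : σ.length = D.length) :
    Z s t (u ++ [(k, .cross false)] ++ v) D σ = Z s t (u ++ [(k, .cross true)] ++ v) D σ + (t - s) * Z s t (u ++ v) D σ := by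
  have hx : ∀ x : Bool, run E [(k, .cross x)] = some E := fun x => by
    rw [run_cons, act_cross_same k x d E h1 h2]; simp [run]
  unfold Z
  rw [List.append_assoc, List.append_assoc, opw_append s t u ([(k, Kind.cross false)] ++ v) D E hu,
    opw_append s t u ([(k, Kind.cross true)] ++ v) D E hu, opw_append s t u v D E hu,
    opw_append s t [(k, Kind.cross false)] v E E (hx false), opw_append s t [(k, Kind.cross true)] v E E (hx true)]
  rw [← opw_smul, ← opw_add]
  refine opw_congr s t u D E hu _ _ σ hσ fun τ hτ => ?_
  have hn : ∀ x : Bool, nx k (.cross x) E = E := fun x => by simp [nx, act_cross_same k x d E h1 h2]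
  simp only [opw]
  exact ev_skein s t k d E h1 h2 _ τ hτ

/-- The first strand is frozen in the state `false`. -/
def Dt (s t : R) : Word → R
  | (0, .birth d) :: w => bw s (!d) false * Z s t w [d, !d] [false, false]
  | _ => 0

theorem Dt_birth (s t : R) (d : Bool) (w : Word) :
    Dt s t ((0, .birth d) :: w) = bw s (!d) false * Z s t w [d, !d] [false, false] := rfl

theorem act_nil (k : ℕ) (e : Kind) (D : List Bool) (h : act k e [] = some D) : k = 0 ∧ ∃ d, e = .birth d ∧ D = [d, !d] := by
  cases k with
  | zero =>
    refine ⟨rfl, ?_⟩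
    cases e with
    | birth d => exact ⟨d, rfl, by simpa [act, Kind.act] using h.symm⟩
    | death => simp [act, Kind.act] at h
    | cross x => simp [act, Kind.act] at h
  | succ k => simp [act] at h

/-- A closed word starts with a maximum. -/
theorem closed_cons (k : ℕ) (e : Kind) (w : Word) (h : Closed ((k, e) :: w)) :
    k = 0 ∧ ∃ d, e = .birth d ∧ run [d, !d] w = some [] := by
  unfold Closed at h
  rw [run_cons] at h
  obtain ⟨D, hD, h1⟩ := Option.bind_eq_some_iff.1 h
  obtain ⟨hk, d, he, hDd⟩ := act_nil k e D hD
  subst hDd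
  exact ⟨hk, d, he, h1⟩

theorem schur (s t : R) (hst : s * t = 1) (w : Word) (d : Bool) (h : run [d, !d] w = some []) :
    bw s d false * Z s t w [d, !d] [false, false] + bw s d true * Z s t w [d, !d] [true, true] = 0 := by
  have h1 := (super_q1 s t hst).kill w [d, !d] h [d, !d] rfl
  cases d
  · simp only [Bool.not_false, qc_cons, qc, q1, Kw, sg, bw, Bool.not_true] at h1 ⊢
    grind
  · simp only [Bool.not_true, qc_cons, qc, q1, Kw, sg, bw, Bool.not_false] at h1 ⊢
    grind

theorem cut (s t : R) (hst : s * t = 1) (w : Word) (d c : Bool) (h : run [d, !d, c, !c] w = some []) :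
    bw s (!d) false * (bw s c false * Z s t w [d, !d, c, !c] [false, false, false, false] +
        bw s c true * Z s t w [d, !d, c, !c] [false, false, true, true]) =
      bw s (!c) false * (bw s d false * Z s t w [d, !d, c, !c] [false, false, false, false] +
        bw s d true * Z s t w [d, !d, c, !c] [true, true, false, false]) := by
  have h1 := (super_q1 s t hst).kill w [d, !d, c, !c] h [false, false, c, !c] rfl
  have h2 := (super_q2 s t hst).kill w [d, !d, c, !c] h [!d, d, false, false] rfl
  cases d <;> cases c <;>
    simp only [Bool.not_false, Bool.not_true, qc_cons, qc, q1, q2, Kw, sg, bw] at h1 h2 ⊢ <;> grind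

theorem Dt_r1 (s t : R) (hst : s * t = 1) (d x : Bool) (v : Word) (h : Closed ([(0, .birth (!d))] ++ v)) :
    Dt s t ([(0, .birth d), (0, .cross x)] ++ v) = Dt s t ([(0, .birth (!d))] ++ v) := by
  simp only [List.cons_append, List.nil_append] at h ⊢
  obtain ⟨-, c, hc, h1⟩ := closed_cons _ _ _ h
  cases hc
  have h2 := schur s t hst v (!d) h1
  rw [Dt_birth, Dt_birth]
  have h3 : Z s t ((0, .cross x) :: v) [d, !d] [false, false] =
      crs s t d (!d) x false false fun k l => Z s t v [!d, d] [k, l] := by
    simp [Z, opw, ev_zero_pos, ev0, nx, act_zero, Kind.act]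
  rw [h3]
  simp only [Bool.not_not] at h2 ⊢
  cases d <;> cases x <;> simp only [Bool.not_false, Bool.not_true, bw, crs] at h2 ⊢ <;> grind

theorem Dt_far (s t : R) (hst : s * t = 1) (d c : Bool) (v : Word) (h : Closed ([(0, .birth c), (0, .birth d)] ++ v)) :
    Dt s t ([(0, .birth d), (2, .birth c)] ++ v) = Dt s t ([(0, .birth c), (0, .birth d)] ++ v) := by
  simp only [List.cons_append, List.nil_append] at h ⊢
  obtain ⟨-, c', hc, h1⟩ := closed_cons _ _ _ h
  cases hc
  have h2 : run [d, !d, c, !c] v = some [] := by
    rw [run_cons, act_zero] at h1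
    simpa [Kind.act] using h1
  rw [Dt_birth, Dt_birth]
  have h3 : Z s t ((2, .birth c) :: v) [d, !d] [false, false] =
      bw s c false * Z s t v [d, !d, c, !c] [false, false, false, false] +
        bw s c true * Z s t v [d, !d, c, !c] [false, false, true, true] := by
    have hn : nx 2 (.birth c) [d, !d] = [d, !d, c, !c] := by simp [nx, act, Kind.act]
    simp only [Z, opw, hn]
    rw [show (2 : ℕ) = 2 + 0 from rfl, ev_two, ev_zero_pos]
    simp only [ev0]
  have h4 : Z s t ((0, .birth d) :: v) [c, !c] [false, false] =
      bw s d false * Z s t v [d, !d, c, !c] [false, false, false, false] +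
        bw s d true * Z s t v [d, !d, c, !c] [true, true, false, false] := by
    simp [Z, opw, ev_zero_pos, ev0, nx, act_zero, Kind.act]
  rw [h3, h4]
  exact cut s t hst v d c h2

theorem Dt_move (s t : R) (hst : s * t = 1) {l r : Word} (hm : Move l r) (u v : Word) (hl : Closed (u ++ l ++ v))
    (hr : Closed (u ++ r ++ v)) : Dt s t (u ++ l ++ v) = Dt s t (u ++ r ++ v) := by
  match u, hl, hr with
  | (k, e) :: u, hl, hr =>
    simp only [List.cons_append] at hl hr ⊢
    obtain ⟨hk, d, he, h1⟩ := closed_cons _ _ _ hl
    obtain ⟨-, d', he', h2⟩ := closed_cons _ _ _ hr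
    subst hk he
    cases he'
    rw [Dt_birth, Dt_birth, Z_move s t hst hm u v [d, !d] h1 h2 [false, false] rfl]
  | [], hl, hr =>
    simp only [List.nil_append] at hl hr ⊢
    cases hm with
    | far k m e f =>
      simp only [List.cons_append, List.nil_append] at hl hr
      obtain ⟨hk, d, he, h1⟩ := closed_cons _ _ _ hl
      subst hk he
      rw [run_cons] at h1
      obtain ⟨E, hE, h2⟩ := Option.bind_eq_some_iff.1 h1
      rw [show 0 + (Kind.birth d).out + m = 2 + m by simp [Kind.out], act_two] at hE
      obtain ⟨E', hE', -⟩ := Option.map_eq_some_iff.1 hE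
      obtain ⟨hm0, c, hc, -⟩ := act_nil _ _ _ hE'
      subst hm0 hc
      have := Dt_far s t hst d c v (by simpa [Kind.inn] using hr)
      simpa [Kind.inn, Kind.out] using this
    | snakeL k d =>
      simp only [List.cons_append, List.nil_append] at hl
      obtain ⟨hk, d', he, h1⟩ := closed_cons _ _ _ hl
      subst hk
      cases he
      rw [run_cons] at h1
      simp [act, Kind.act] at h1
    | snakeR k d =>
      simp only [List.cons_append, List.nil_append] at hl
      obtain ⟨hk, -⟩ := closed_cons _ _ _ hl
      omega
    | forkB k d x =>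
      simp only [List.cons_append, List.nil_append] at hl
      obtain ⟨hk, d', he, h1⟩ := closed_cons _ _ _ hl
      subst hk
      cases he
      rw [run_cons] at h1
      simp [act, Kind.act] at h1
    | forkD k x =>
      simp only [List.cons_append, List.nil_append] at hl
      obtain ⟨-, d', he, -⟩ := closed_cons _ _ _ hl
      cases he
    | r1B k d x =>
      have hk : k = 0 := by
        simp only [List.cons_append, List.nil_append] at hl
        exact (closed_cons _ _ _ hl).1
      subst hk
      exact Dt_r1 s t hst d x v hr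
    | r1D k x =>
      simp only [List.cons_append, List.nil_append] at hl
      obtain ⟨-, d', he, -⟩ := closed_cons _ _ _ hl
      cases he
    | r2 k x =>
      simp only [List.cons_append, List.nil_append] at hl
      obtain ⟨-, d', he, -⟩ := closed_cons _ _ _ hl
      cases he
    | r3 k x y z h =>
      simp only [List.cons_append, List.nil_append] at hl
      obtain ⟨-, d', he, -⟩ := closed_cons _ _ _ hl
      cases he

theorem Dt_skein (s t : R) (u v : Word) (E : List Bool) (k : ℕ) (d : Bool) (hu : run [] u = some E) (h1 : E[k]? = some d)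
    (h2 : E[k + 1]? = some d) (hc : Closed (u ++ v)) :
    Dt s t (u ++ [(k, .cross false)] ++ v) = Dt s t (u ++ [(k, .cross true)] ++ v) + (t - s) * Dt s t (u ++ v) := by
  match u, hu, hc with
  | [], hu, _ =>
    simp only [run, Option.some.injEq] at hu
    subst hu
    simp at h1
  | (k', e) :: u, hu, hc =>
    simp only [List.cons_append] at hc ⊢
    obtain ⟨hk, c, he, h3⟩ := closed_cons _ _ _ hc
    subst hk he
    rw [run_cons, act_zero] at hu
    have hu' : run [c, !c] u = some E := by simpa [Kind.act] using hu
    rw [Dt_birth, Dt_birth, Dt_birth, Z_skein s t u v [c, !c] E hu' k d h1 h2 [false, false] rfl]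
    ring

open Polynomial

/-- `ℤ[z]` with `s` and `1 / s = s + z` adjoined. -/
abbrev QR : Type := QuadraticAlgebra ℤ[X] 1 (-X)

/-- The Conway polynomial. -/
noncomputable def nabla (w : Word) : ℤ[X] := (Dt (R := QR) ⟨0, 1⟩ ⟨X, 1⟩ w).re

theorem hst : (⟨0, 1⟩ : QR) * ⟨X, 1⟩ = 1 := by
  ext <;> simp [QuadraticAlgebra.re_one, QuadraticAlgebra.im_one]

/-- The Conway polynomial exists. -/
theorem isConway_nabla : IsConway nabla where
  circle d := by
    have h : Dt (R := QR) ⟨0, 1⟩ ⟨X, 1⟩ [(0, .birth d), (0, .death)] = 1 := by
      have h0 := hst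
      rw [Dt_birth]
      simp only [Z, opw, ev_zero_pos, ev0]
      cases d
      · simpa [bw, dw] using h0
      · simp [bw, dw]
    rw [nabla, h]
    rfl
  move u v l r hm hl hr := by
    rw [nabla, nabla, Dt_move _ _ hst hm u v hl hr]
  skein u v E k d hu h1 h2 hc := by
    rw [nabla, nabla, nabla, Dt_skein _ _ u v E k d hu h1 h2 hc]
    simp

theorem exists_isConway : ∃ nab : Word → ℤ[X], IsConway nab := ⟨nabla, isConway_nabla⟩

end Pool.Agent.Helper60.FF
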