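import Pool.Agent.Helper2.Arb.Diagram

/-!
# The free fermion model of the Conway polynomial

The states of the strands at a level are lists of bits; a word of events acts on functions of these lists.  The parameters are `s, t` with `s * t = 1`
(and `X = t - s`).
-/

set_option autoImplicit false

namespace Pool.Agent.Helper60.FF

open Pool.Agent.Helper2.Arb

variable {R : Type*} [CommRing R]

/-- Weight of a maximum with left strand `d`, in the state `i`. -/
def bw (s : R) : Bool → Bool → R
  | true, false => s
  | true, true => -s
  | false, _ => 1

/-- Weight of a minimum with left strand `a`, in the state `i`. -/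
def dw (t : R) : Bool → Bool → R
  | true, _ => 1
  | false, false => t
  | false, true => -t

/-- A crossing: directions `a, b`, kind `x`, states `i, j` above; the function of the states below. -/
def crs (s t : R) : Bool → Bool → Bool → Bool → Bool → (Bool → Bool → R) → R
  | true, true, true, false, false, f => s * f false false
  | true, true, true, false, true, f => (s - t) * f false true + f true false
  | true, true, true, true, false, f => f false true
  | true, true, true, true, true, f => -t * f true true
  | true, true, false, false, false, f => t * f false false
  | true, true, false, false, true, f => f true false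
  | true, true, false, true, false, f => f false true + (t - s) * f true false
  | true, true, false, true, true, f => -s * f true true
  | true, false, true, false, false, f => t * f false false + (t - s) * f true true
  | true, false, true, false, true, f => f true false
  | true, false, true, true, false, f => f false true
  | true, false, true, true, true, f => -s * f true true
  | true, false, false, false, false, f => s * f false false
  | true, false, false, false, true, f => f true false
  | true, false, false, true, false, f => f false true
  | true, false, false, true, true, f => (s - t) * f false false + -t * f true true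
  | false, true, true, false, false, f => t * f false false
  | false, true, true, false, true, f => f true false
  | false, true, true, true, false, f => f false true
  | false, true, true, true, true, f => (s - t) * f false false + -s * f true true
  | false, true, false, false, false, f => s * f false false + (t - s) * f true true
  | false, true, false, false, true, f => f true false
  | false, true, false, true, false, f => f false true
  | false, true, false, true, true, f => -t * f true true
  | false, false, true, false, false, f => s * f false false
  | false, false, true, false, true, f => f true false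
  | false, false, true, true, false, f => f false true + (s - t) * f true false
  | false, false, true, true, true, f => -t * f true true
  | false, false, false, false, false, f => t * f false false
  | false, false, false, false, true, f => (t - s) * f false true + f true false
  | false, false, false, true, false, f => f false true
  | false, false, false, true, true, f => -s * f true true

/-- An event at position `0` acts on functions of the states. -/
def ev0 (s t : R) : Kind → List Bool → (List Bool → R) → List Bool → R
  | .birth d, _, f, σ => bw s d false * f (false :: false :: σ) + bw s d true * f (true :: true :: σ)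
  | .death, a :: _, f, i :: j :: σ => if i = j then dw t a i * f σ else 0
  | .death, _, _, _ => 0
  | .cross x, a :: b :: _, f, i :: j :: σ => crs s t a b x i j fun k l => f (k :: l :: σ)
  | .cross _, _, _, _ => 0

/-- An event at position `k` acts on functions of the states. -/
def ev (s t : R) : ℕ → Kind → List Bool → (List Bool → R) → List Bool → R
  | 0, e, D, f, σ => ev0 s t e D f σ
  | k + 1, e, _ :: D, f, i :: σ => ev s t k e D (fun τ => f (i :: τ)) σ
  | _ + 1, _, _, _, _ => 0

/-- The directions below an event. -/
def nx (k : ℕ) (e : Kind) (D : List Bool) : List Bool := (act k e D).getD []

/-- A word acts on functions of the states. -/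
def opw (s t : R) : Word → List Bool → (List Bool → R) → List Bool → R
  | [], _, f => f
  | (k, e) :: w, D, f => ev s t k e D (opw s t w (nx k e D) f)

theorem ev_zero_pos (s t : R) (e : Kind) (D : List Bool) (f : List Bool → R) (σ : List Bool) :
    ev s t 0 e D f σ = ev0 s t e D f σ := by simp [ev]

theorem ev_succ (s t : R) (k : ℕ) (e : Kind) (a : Bool) (D : List Bool) (f : List Bool → R) (i : Bool) (σ : List Bool) :
    ev s t (k + 1) e (a :: D) f (i :: σ) = ev s t k e D (fun τ => f (i :: τ)) σ := by simp [ev]

theorem act_succ (k : ℕ) (e : Kind) (a : Bool) (D : List Bool) : act (k + 1) e (a :: D) = (act k e D).map (a :: ·) := by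
  simp [act]

theorem crs_congr (s t : R) (a b x i j : Bool) (f g : Bool → Bool → R) (h : ∀ k l, f k l = g k l) :
    crs s t a b x i j f = crs s t a b x i j g := by
  have : f = g := by funext k l; exact h k l
  rw [this]

theorem crs_add (s t : R) (a b x i j : Bool) (f g : Bool → Bool → R) :
    crs s t a b x i j (fun k l => f k l + g k l) = crs s t a b x i j f + crs s t a b x i j g := by
  cases a <;> cases b <;> cases x <;> cases i <;> cases j <;> simp only [crs] <;> ring

theorem crs_smul (s t : R) (a b x i j : Bool) (c : R) (f : Bool → Bool → R) :
    crs s t a b x i j (fun k l => c * f k l) = c * crs s t a b x i j f := by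
  cases a <;> cases b <;> cases x <;> cases i <;> cases j <;> simp only [crs] <;> ring

theorem ev0_add (s t : R) (e : Kind) (D : List Bool) (f g : List Bool → R) (σ : List Bool) :
    ev0 s t e D (fun τ => f τ + g τ) σ = ev0 s t e D f σ + ev0 s t e D g σ := by
  match e, D, σ with
  | .birth d, _, σ => simp only [ev0]; ring
  | .death, [], _ => simp [ev0]
  | .death, a :: _, [] => simp [ev0]
  | .death, a :: _, [_] => simp [ev0]
  | .death, a :: _, i :: j :: σ => simp only [ev0]; split_ifs <;> ring
  | .cross x, [], _ => simp [ev0]
  | .cross x, [_], _ => simp [ev0]
  | .cross x, _ :: _ :: _, [] => simp [ev0]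
  | .cross x, _ :: _ :: _, [_] => simp [ev0]
  | .cross x, a :: b :: _, i :: j :: σ => simp only [ev0]; exact crs_add s t a b x i j _ _

theorem ev0_smul (s t : R) (e : Kind) (D : List Bool) (c : R) (f : List Bool → R) (σ : List Bool) :
    ev0 s t e D (fun τ => c * f τ) σ = c * ev0 s t e D f σ := by
  match e, D, σ with
  | .birth d, _, σ => simp only [ev0]; ring
  | .death, [], _ => simp [ev0]
  | .death, a :: _, [] => simp [ev0]
  | .death, a :: _, [_] => simp [ev0]
  | .death, a :: _, i :: j :: σ => simp only [ev0]; split_ifs <;> ring
  | .cross x, [], _ => simp [ev0]
  | .cross x, [_], _ => simp [ev0]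
  | .cross x, _ :: _ :: _, [] => simp [ev0]
  | .cross x, _ :: _ :: _, [_] => simp [ev0]
  | .cross x, a :: b :: _, i :: j :: σ => simp only [ev0]; exact crs_smul s t a b x i j c _

theorem ev_add (s t : R) (k : ℕ) (e : Kind) (D : List Bool) (f g : List Bool → R) (σ : List Bool) :
    ev s t k e D (fun τ => f τ + g τ) σ = ev s t k e D f σ + ev s t k e D g σ := by
  induction k generalizing D f g σ with
  | zero => simp only [ev_zero_pos, ev0_add]
  | succ k ih =>
    match D, σ with
    | [], _ => simp [ev]
    | _ :: _, [] => simp [ev]
    | a :: D, i :: σ => simp only [ev_succ, ih]

theorem ev_smul (s t : R) (k : ℕ) (e : Kind) (D : List Bool) (c : R) (f : List Bool → R) (σ : List Bool) :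
    ev s t k e D (fun τ => c * f τ) σ = c * ev s t k e D f σ := by
  induction k generalizing D f σ with
  | zero => simp only [ev_zero_pos, ev0_smul]
  | succ k ih =>
    match D, σ with
    | [], _ => simp [ev]
    | _ :: _, [] => simp [ev]
    | a :: D, i :: σ => simp only [ev_succ, ih]

theorem ev_zero (s t : R) (k : ℕ) (e : Kind) (D σ : List Bool) : ev s t k e D (fun _ => 0) σ = 0 := by
  have := ev_smul s t k e D 0 (fun _ => 0) σ
  simpa using this

/-- An event only uses the values at the lists of the right length. -/
theorem ev_congr (s t : R) (k : ℕ) (e : Kind) (D D' : List Bool) (h : act k e D = some D') (f g : List Bool → R) (σ : List Bool)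
    (hσ : σ.length = D.length) (hfg : ∀ τ : List Bool, τ.length = D'.length → f τ = g τ) :
    ev s t k e D f σ = ev s t k e D g σ := by
  induction k generalizing D D' f g σ with
  | zero =>
    simp only [ev_zero_pos]
    match e, D, σ, hσ, h with
    | .birth d, D, σ, hσ, h =>
      simp only [act, Kind.act, Option.some.injEq] at h
      subst h
      simp only [ev0]
      rw [hfg _ (by simp [hσ]), hfg _ (by simp [hσ])]
    | .death, [], _, _, h => simp [act, Kind.act] at h
    | .death, [_], _, _, h => simp [act, Kind.act] at h
    | .death, a :: b :: D, i :: j :: σ, hσ, h =>
      simp only [act, Kind.act] at h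
      split_ifs at h with hab
      simp only [Option.some.injEq] at h
      subst h
      simp only [ev0]
      rw [hfg _ (by simpa using hσ)]
    | .cross x, [], _, _, h => simp [act, Kind.act] at h
    | .cross x, [_], _, _, h => simp [act, Kind.act] at h
    | .cross x, a :: b :: D, i :: j :: σ, hσ, h =>
      simp only [act, Kind.act, Option.some.injEq] at h
      subst h
      simp only [ev0]
      exact crs_congr s t a b x i j _ _ fun k l => hfg _ (by simpa using hσ)
  | succ k ih =>
    match D, σ, hσ, h with
    | [], _, _, h => simp [act] at h
    | a :: D, i :: σ, hσ, h =>
      rw [act_succ] at h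
      obtain ⟨E, hE, rfl⟩ := Option.map_eq_some_iff.1 h
      simp only [ev_succ]
      exact ih D E hE _ _ σ (by simpa using hσ) fun τ hτ => hfg _ (by simp [hτ])

end Pool.Agent.Helper60.FF
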