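import Pool.Agent.Helper60.FF.Shift

/-!
# The moves act in the same way
-/

set_option autoImplicit false

namespace Pool.Agent.Helper60.FF

open Pool.Agent.Helper2.Arb

variable {R : Type*} [CommRing R]

theorem ev_one (s t : R) (e : Kind) (a : Bool) (D : List Bool) (f : List Bool → R) (i : Bool) (σ : List Bool) :
    ev s t 1 e (a :: D) f (i :: σ) = ev0 s t e D (fun τ => f (i :: τ)) σ := by
  rw [show (1 : ℕ) = 0 + 1 from rfl, ev_succ, ev_zero_pos]

theorem act_one (e : Kind) (a : Bool) (D : List Bool) : act 1 e (a :: D) = (e.act D).map (a :: ·) := by
  rw [show (1 : ℕ) = 0 + 1 from rfl, act_succ]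
  simp [act]

theorem act_zero (e : Kind) (D : List Bool) : act 0 e D = e.act D := by simp [act]

theorem snakeL0 (s t : R) (hst : s * t = 1) (d : Bool) : Eqv s t [(0, .birth d), (1, .death)] [] := by
  intro D Dl Dr hl hr
  match D, hl, hr with
  | [], hl, _ => simp [run, act_zero, act_one, Kind.act] at hl
  | c :: D, hl, hr =>
    simp only [run, act_zero, act_one, Kind.act, Option.bind_some, Bool.not_not] at hl hr
    by_cases hc : c = d
    · subst hc
      simp only [if_true, Option.map_some, Option.bind_some, Option.some.injEq] at hl hr
      refine ⟨by rw [← hl, ← hr], fun f σ hσ => ?_⟩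
      match σ, hσ with
      | i :: σ, hσ =>
        simp only [opw, nx, act_zero, Kind.act, Option.getD_some, ev_zero_pos, ev0, ev_one]
        cases c <;> cases i <;> simp [bw, dw] <;> grind
    · simp [hc] at hl

theorem snakeR0 (s t : R) (hst : s * t = 1) (d : Bool) : Eqv s t [(1, .birth d), (0, .death)] [] := by
  intro D Dl Dr hl hr
  match D, hl, hr with
  | [], hl, _ => simp [run, act] at hl
  | c :: D, hl, hr =>
    simp only [run, act_zero, act_one, Kind.act, Option.bind_some, Option.map_some] at hl hr
    by_cases hc : d = !c
    · subst hc
      simp only [if_true, Option.bind_some, Option.some.injEq, Bool.not_not] at hl hr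
      refine ⟨by rw [← hl, ← hr], fun f σ hσ => ?_⟩
      match σ, hσ with
      | i :: σ, hσ =>
        simp only [opw, nx, act_one, Kind.act, Option.getD_some, Option.map_some, ev_zero_pos, ev0, ev_one]
        cases c <;> cases i <;> simp [bw, dw] <;> grind
    · simp [hc] at hl

theorem forkB0 (s t : R) (hst : s * t = 1) (d x : Bool) :
    Eqv s t [(0, .birth d), (1, .cross x)] [(1, .birth d), (0, .cross (!x))] := by
  intro D Dl Dr hl hr
  match D, hl, hr with
  | [], hl, _ => simp [run, act_zero, act_one, Kind.act] at hl
  | c :: D, hl, hr =>
    simp only [run, act_zero, act_one, Kind.act, Option.bind_some, Option.map_some, Option.some.injEq] at hl hr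
    refine ⟨by rw [← hl, ← hr], fun f σ hσ => ?_⟩
    match σ, hσ with
    | i :: σ, hσ =>
      simp only [opw, nx, act_zero, act_one, Kind.act, Option.getD_some, Option.map_some, ev_zero_pos, ev0, ev_one]
      cases c <;> cases d <;> cases x <;> cases i <;> simp only [bw, crs, Bool.not_true, Bool.not_false] <;> grind

theorem forkD0 (s t : R) (hst : s * t = 1) (x : Bool) :
    Eqv s t [(1, .cross x), (0, .death)] [(0, .cross (!x)), (1, .death)] := by
  intro D Dl Dr hl hr
  match D, hl, hr with
  | [], hl, _ => simp [run, act] at hl
  | [a], hl, _ => simp [run, act_one, Kind.act] at hl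
  | [a, b], hl, _ => simp [run, act_one, Kind.act] at hl
  | a :: b :: c :: D, hl, hr =>
    simp only [run, act_zero, act_one, Kind.act, Option.bind_some, Option.map_some] at hl hr
    by_cases hc : c = !a
    · subst hc
      simp only [if_true, Option.bind_some, Option.some.injEq, Option.map_some] at hl hr
      refine ⟨by rw [← hl, ← hr], fun f σ hσ => ?_⟩
      match σ, hσ with
      | i :: j :: k :: σ, hσ =>
        simp only [opw, nx, act_zero, act_one, Kind.act, Option.getD_some, Option.map_some, ev_zero_pos, ev0, ev_one]
        cases a <;> cases b <;> cases x <;> cases i <;> cases j <;> cases k <;>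
          simp [dw, crs] <;> grind
    · simp [hc] at hl

theorem r1B0 (s t : R) (hst : s * t = 1) (d x : Bool) : Eqv s t [(0, .birth d), (0, .cross x)] [(0, .birth (!d))] := by
  intro D Dl Dr hl hr
  simp only [run, act_zero, Kind.act, Option.bind_some, Option.some.injEq, Bool.not_not] at hl hr
  refine ⟨by rw [← hl, ← hr], fun f σ hσ => ?_⟩
  simp only [opw, nx, act_zero, Kind.act, Option.getD_some, ev_zero_pos, ev0]
  cases d <;> cases x <;> simp only [bw, crs, Bool.not_true, Bool.not_false] <;> grind

theorem r1D0 (s t : R) (hst : s * t = 1) (x : Bool) : Eqv s t [(0, .cross x), (0, .death)] [(0, .death)] := by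
  intro D Dl Dr hl hr
  match D, hl, hr with
  | [], hl, _ => simp [run, act_zero, Kind.act] at hl
  | [a], hl, _ => simp [run, act_zero, Kind.act] at hl
  | a :: b :: D, hl, hr =>
    simp only [run, act_zero, Kind.act, Option.bind_some] at hl hr
    by_cases hc : b = !a
    · subst hc
      simp only [if_true, Option.bind_some, Option.some.injEq, Bool.not_not] at hl hr
      refine ⟨by rw [← hl, ← hr], fun f σ hσ => ?_⟩
      match σ, hσ with
      | i :: j :: σ, hσ =>
        simp only [opw, nx, act_zero, Kind.act, Option.getD_some, ev_zero_pos, ev0]
        cases a <;> cases x <;> cases i <;> cases j <;> simp [dw, crs] <;> grind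
    · simp [hc] at hr

theorem r20 (s t : R) (hst : s * t = 1) (x : Bool) : Eqv s t [(0, .cross x), (0, .cross (!x))] [] := by
  intro D Dl Dr hl hr
  match D, hl, hr with
  | [], hl, _ => simp [run, act_zero, Kind.act] at hl
  | [a], hl, _ => simp [run, act_zero, Kind.act] at hl
  | a :: b :: D, hl, hr =>
    simp only [run, act_zero, Kind.act, Option.bind_some, Option.some.injEq] at hl hr
    refine ⟨by rw [← hl, ← hr], fun f σ hσ => ?_⟩
    match σ, hσ with
    | i :: j :: σ, hσ =>
      simp only [opw, nx, act_zero, Kind.act, Option.getD_some, ev_zero_pos, ev0]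
      cases a <;> cases b <;> cases x <;> cases i <;> cases j <;> simp only [crs, Bool.not_true, Bool.not_false] <;> grind

theorem yb_t (s t : R) (hst : s * t = 1) (b c x y z i j k : Bool) (h : x = z → y = x) (G : Bool → Bool → Bool → R) :
    (crs s t true b x i j fun p q => crs s t true c y q k fun r u => crs s t b c z p r fun v w => G v w u) =
      crs s t b c z j k fun p q => crs s t true c y i p fun r u => crs s t true b x u q fun v w => G r v w := by
  cases x <;> cases y <;> cases z <;> first | (exfalso; simp at h; done) | skip
  all_goals
    clear h
    cases b <;> cases c <;> cases i <;> cases j <;> cases k <;> simp only [crs] <;> grind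

theorem yb_f (s t : R) (hst : s * t = 1) (b c x y z i j k : Bool) (h : x = z → y = x) (G : Bool → Bool → Bool → R) :
    (crs s t false b x i j fun p q => crs s t false c y q k fun r u => crs s t b c z p r fun v w => G v w u) =
      crs s t b c z j k fun p q => crs s t false c y i p fun r u => crs s t false b x u q fun v w => G r v w := by
  cases x <;> cases y <;> cases z <;> first | (exfalso; simp at h; done) | skip
  all_goals
    clear h
    cases b <;> cases c <;> cases i <;> cases j <;> cases k <;> simp only [crs] <;> grind

theorem r30 (s t : R) (hst : s * t = 1) (x y z : Bool) (h : x = z → y = x) :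
    Eqv s t [(0, .cross x), (1, .cross y), (0, .cross z)] [(1, .cross z), (0, .cross y), (1, .cross x)] := by
  intro D Dl Dr hl hr
  match D, hl, hr with
  | [], hl, _ => simp [run, act_zero, Kind.act] at hl
  | [a], hl, _ => simp [run, act_zero, Kind.act] at hl
  | [a, b], hl, _ => simp [run, act_zero, act_one, Kind.act] at hl
  | a :: b :: c :: D, hl, hr =>
    simp only [run, act_zero, act_one, Kind.act, Option.bind_some, Option.map_some, Option.some.injEq] at hl hr
    refine ⟨by rw [← hl, ← hr], fun f σ hσ => ?_⟩
    match σ, hσ with
    | i :: j :: k :: σ, hσ =>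
      simp only [opw, nx, act_zero, act_one, Kind.act, Option.getD_some, Option.map_some, ev_zero_pos, ev0, ev_one]
      cases a with
      | true => exact yb_t s t hst b c x y z i j k h fun u v w => f (u :: v :: w :: σ)
      | false => exact yb_f s t hst b c x y z i j k h fun u v w => f (u :: v :: w :: σ)

theorem ev_crs (s t : R) (k : ℕ) (e : Kind) (D : List Bool) (a b x i j : Bool) (G : Bool → Bool → List Bool → R) (σ : List Bool) :
    ev s t k e D (fun τ => crs s t a b x i j fun u v => G u v τ) σ = crs s t a b x i j fun u v => ev s t k e D (G u v) σ := by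
  have hn : ∀ (c : R) (f : List Bool → R), ev s t k e D (fun τ => c * f τ) σ = c * ev s t k e D f σ := fun c f => ev_smul s t k e D c f σ
  cases a <;> cases b <;> cases x <;> cases i <;> cases j <;> simp only [crs, ev_add, hn]

theorem ev_two (s t : R) (k : ℕ) (e : Kind) (a b : Bool) (D : List Bool) (f : List Bool → R) (i j : Bool) (σ : List Bool) :
    ev s t (2 + k) e (a :: b :: D) f (i :: j :: σ) = ev s t k e D (fun τ => f (i :: j :: τ)) σ := by
  rw [show 2 + k = k + 1 + 1 by omega, ev_succ, ev_succ]

theorem act_two (k : ℕ) (e : Kind) (a b : Bool) (D : List Bool) : act (2 + k) e (a :: b :: D) = (act k e D).map fun E => a :: b :: E := by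
  rw [show 2 + k = k + 1 + 1 by omega, act_succ, act_succ]
  cases act k e D <;> simp

theorem far0 (s t : R) (m : ℕ) (e g : Kind) : Eqv s t [(0, e), (e.out + m, g)] [(e.inn + m, g), (0, e)] := by
  intro D Dl Dr hl hr
  cases e with
  | birth d =>
    simp only [Kind.out, Kind.inn, Nat.zero_add] at hl hr ⊢
    simp only [run, act_zero, Kind.act, Option.bind_some, act_two] at hl hr
    cases hE : act m g D with
    | none => simp [hE] at hl
    | some E =>
      simp only [hE, Option.map_some, Option.bind_some, Option.some.injEq] at hl hr
      refine ⟨by rw [← hl, ← hr], fun f σ hσ => ?_⟩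
      have h1 : (ev s t 0 (.birth d) E f) = fun τ => bw s d false * f (false :: false :: τ) + bw s d true * f (true :: true :: τ) := by
        funext τ; simp only [ev_zero_pos, ev0]
      simp only [opw, nx, act_zero, Kind.act, Option.getD_some, hE, ev_zero_pos, ev0, ev_two]
      rw [h1, ev_add, ev_smul, ev_smul]
  | death =>
    simp only [Kind.out, Kind.inn, Nat.zero_add] at hl hr ⊢
    match D, hl, hr with
    | [], hl, _ => simp [run, act_zero, Kind.act] at hl
    | [a], hl, _ => simp [run, act_zero, Kind.act] at hl
    | a :: b :: D, hl, hr =>
      simp only [run, act_zero, Kind.act, act_two] at hl hr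
      by_cases hb : b = !a
      · subst hb
        simp only [if_true, Option.bind_some] at hl hr
        cases hE : act m g D with
        | none => simp [hE] at hl
        | some E =>
          simp only [hE, Option.map_some, Option.bind_some, if_true, Option.some.injEq] at hl hr
          refine ⟨by rw [← hl, ← hr], fun f σ hσ => ?_⟩
          match σ, hσ with
          | i :: j :: σ, hσ =>
            simp only [opw, nx, act_zero, Kind.act, Option.getD_some, hE, ev_zero_pos, ev0, ev_two, act_two, Option.map_some, if_true]
            by_cases hij : i = j
            · subst hij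
              simp only [if_true]
              rw [ev_smul]
            · simp only [if_neg hij]
              rw [ev_zero]
      · simp [hb] at hl
  | cross x =>
    simp only [Kind.out, Kind.inn] at hl hr ⊢
    match D, hl, hr with
    | [], hl, _ => simp [run, act_zero, Kind.act] at hl
    | [a], hl, _ => simp [run, act_zero, Kind.act] at hl
    | a :: b :: D, hl, hr =>
      simp only [run, act_zero, Kind.act, act_two, Option.bind_some] at hl hr
      cases hE : act m g D with
      | none => simp [hE] at hl
      | some E =>
        simp only [hE, Option.map_some, Option.bind_some, Option.some.injEq] at hl hr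
        refine ⟨by rw [← hl, ← hr], fun f σ hσ => ?_⟩
        match σ, hσ with
        | i :: j :: σ, hσ =>
          simp only [opw, nx, act_zero, Kind.act, Option.getD_some, hE, ev_zero_pos, ev0, ev_two, act_two, Option.map_some]
          rw [ev_crs]

theorem Eqv.of_eq {s t : R} {l r l' r' : Word} (h : Eqv s t l r) (hl : l = l') (hr : r = r') : Eqv s t l' r' := by
  subst hl hr; exact h

/-- All moves act in the same way. -/
theorem move_eqv (s t : R) (hst : s * t = 1) {l r : Word} (h : Move l r) : Eqv s t l r := by
  cases h with
  | far k m e f =>
    induction k with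
    | zero => exact (far0 s t m e f).of_eq (by simp) (by simp)
    | succ k ih =>
      refine ih.shift.of_eq ?_ ?_
      · simp only [sh_cons, sh_nil]; rw [show k + e.out + m + 1 = k + 1 + e.out + m by omega]
      · simp only [sh_cons, sh_nil]; rw [show k + e.inn + m + 1 = k + 1 + e.inn + m by omega]
  | snakeL k d => induction k with
    | zero => exact snakeL0 s t hst d
    | succ k ih => exact ih.shift
  | snakeR k d => induction k with
    | zero => exact snakeR0 s t hst d
    | succ k ih => exact ih.shift
  | forkB k d x => induction k with
    | zero => exact forkB0 s t hst d x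
    | succ k ih => exact ih.shift
  | forkD k x => induction k with
    | zero => exact forkD0 s t hst x
    | succ k ih => exact ih.shift
  | r1B k d x => induction k with
    | zero => exact r1B0 s t hst d x
    | succ k ih => exact ih.shift
  | r1D k x => induction k with
    | zero => exact r1D0 s t hst x
    | succ k ih => exact ih.shift
  | r2 k x => induction k with
    | zero => exact r20 s t hst x
    | succ k ih => exact ih.shift
  | r3 k x y z h => induction k with
    | zero => exact r30 s t hst x y z h
    | succ k ih => exact ih.shift

end Pool.Agent.Helper60.FF
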