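import Pool.Agent.Helper60.FF.Model

/-!
# Local equivalence of words and shifts
-/

set_option autoImplicit false

namespace Pool.Agent.Helper60.FF

open Pool.Agent.Helper2.Arb

variable {R : Type*} [CommRing R]

/-- Two words act in the same way. -/
def Eqv (s t : R) (l r : Word) : Prop :=
  ∀ D Dl Dr : List Bool, run D l = some Dl → run D r = some Dr →
    Dl = Dr ∧ ∀ (f : List Bool → R) (σ : List Bool), σ.length = D.length → opw s t l D f σ = opw s t r D f σ

/-- Add a strand on the left. -/
def sh (w : Word) : Word := w.map fun p => (p.1 + 1, p.2)

@[simp] theorem sh_nil : sh [] = [] := rfl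

@[simp] theorem sh_cons (k : ℕ) (e : Kind) (w : Word) : sh ((k, e) :: w) = (k + 1, e) :: sh w := rfl

theorem run_cons (D : List Bool) (k : ℕ) (e : Kind) (w : Word) : run D ((k, e) :: w) = (act k e D).bind fun E => run E w := by
  simp [run]

theorem run_sh (w : Word) (a : Bool) (D : List Bool) : run (a :: D) (sh w) = (run D w).map (a :: ·) := by
  induction w generalizing D with
  | nil => simp [run]
  | cons p w ih =>
    obtain ⟨k, e⟩ := p
    rw [sh_cons, run_cons, run_cons, act_succ]
    cases act k e D with
    | none => simp
    | some E => simpa using ih E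

theorem run_nil_sh (w : Word) (h : w ≠ []) : run [] (sh w) = none := by
  cases w with
  | nil => exact absurd rfl h
  | cons p w =>
    obtain ⟨k, e⟩ := p
    rw [sh_cons, run_cons]
    simp [act]

theorem opw_sh (s t : R) (w : Word) (a : Bool) (D E : List Bool) (h : run D w = some E) (f : List Bool → R) (i : Bool) (σ : List Bool) :
    opw s t (sh w) (a :: D) f (i :: σ) = opw s t w D (fun τ => f (i :: τ)) σ := by
  induction w generalizing D σ with
  | nil => simp [opw]
  | cons p w ih =>
    obtain ⟨k, e⟩ := p
    rw [run_cons] at h
    obtain ⟨D1, hD1, h1⟩ := Option.bind_eq_some_iff.1 h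
    rw [sh_cons]
    simp only [opw, ev_succ]
    have h2 : nx k e D = D1 := by simp [nx, hD1]
    have h3 : nx (k + 1) e (a :: D) = a :: D1 := by simp [nx, act_succ, hD1]
    rw [h2, h3]
    congr 1
    funext τ
    exact ih D1 h1 τ

theorem Eqv.shift {s t : R} {l r : Word} (h : Eqv s t l r) : Eqv s t (sh l) (sh r) := by
  intro D Dl Dr hl hr
  cases D with
  | nil =>
    by_cases h1 : l = []
    · by_cases h2 : r = []
      · subst h1 h2
        simp only [sh_nil, run, Option.some.injEq] at hl hr
        subst hl hr
        exact ⟨rfl, fun f σ _ => rfl⟩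
      · rw [run_nil_sh r h2] at hr; simp at hr
    · rw [run_nil_sh l h1] at hl; simp at hl
  | cons a D =>
    rw [run_sh] at hl hr
    obtain ⟨El, hEl, rfl⟩ := Option.map_eq_some_iff.1 hl
    obtain ⟨Er, hEr, rfl⟩ := Option.map_eq_some_iff.1 hr
    obtain ⟨h1, h2⟩ := h D El Er hEl hEr
    refine ⟨by rw [h1], ?_⟩
    intro f σ hσ
    match σ, hσ with
    | i :: σ, hσ =>
      rw [opw_sh s t l a D El hEl, opw_sh s t r a D Er hEr]
      exact h2 _ σ (by simpa using hσ)

theorem act_length {k : ℕ} {e : Kind} {D E : List Bool} (h : act k e D = some E) : E.length + e.inn = D.length + e.out := by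
  induction k generalizing D E with
  | zero =>
    match e, D, h with
    | .birth d, D, h =>
      simp only [act, Kind.act, Option.some.injEq] at h
      subst h
      simp [Kind.inn, Kind.out]
    | .death, [], h => simp [act, Kind.act] at h
    | .death, [_], h => simp [act, Kind.act] at h
    | .death, a :: b :: D, h =>
      simp only [act, Kind.act] at h
      split_ifs at h
      simp only [Option.some.injEq] at h
      subst h
      simp [Kind.inn, Kind.out]
    | .cross x, [], h => simp [act, Kind.act] at h
    | .cross x, [_], h => simp [act, Kind.act] at h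
    | .cross x, a :: b :: D, h =>
      simp only [act, Kind.act, Option.some.injEq] at h
      subst h
      simp [Kind.inn, Kind.out]
  | succ k ih =>
    match D, h with
    | [], h => simp [act] at h
    | a :: D, h =>
      rw [act_succ] at h
      obtain ⟨E', hE, rfl⟩ := Option.map_eq_some_iff.1 h
      have := ih hE
      simp only [List.length_cons]
      omega

/-- A word only uses the values at the lists of the right length. -/
theorem opw_congr (s t : R) (w : Word) (D D' : List Bool) (h : run D w = some D') (f g : List Bool → R) (σ : List Bool)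
    (hσ : σ.length = D.length) (hfg : ∀ τ : List Bool, τ.length = D'.length → f τ = g τ) :
    opw s t w D f σ = opw s t w D g σ := by
  induction w generalizing D σ with
  | nil =>
    simp only [run, Option.some.injEq] at h
    subst h
    exact hfg σ hσ
  | cons p w ih =>
    obtain ⟨k, e⟩ := p
    rw [run_cons] at h
    obtain ⟨D1, hD1, h1⟩ := Option.bind_eq_some_iff.1 h
    simp only [opw]
    refine ev_congr s t k e D D1 hD1 _ _ σ hσ fun τ hτ => ?_
    have h2 : nx k e D = D1 := by simp [nx, hD1]
    rw [h2]
    exact ih D1 h1 τ hτ

theorem run_append (u v : Word) (D : List Bool) : run D (u ++ v) = (run D u).bind fun E => run E v := by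
  induction u generalizing D with
  | nil => simp [run]
  | cons p u ih =>
    obtain ⟨k, e⟩ := p
    rw [List.cons_append, run_cons, run_cons]
    cases act k e D with
    | none => simp
    | some E => simpa using ih E

theorem opw_append (s t : R) (u v : Word) (D E : List Bool) (h : run D u = some E) (f : List Bool → R) :
    opw s t (u ++ v) D f = opw s t u D (opw s t v E f) := by
  induction u generalizing D with
  | nil =>
    simp only [run, Option.some.injEq] at h
    subst h
    rfl
  | cons p u ih =>
    obtain ⟨k, e⟩ := p
    rw [run_cons] at h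
    obtain ⟨D1, hD1, h1⟩ := Option.bind_eq_some_iff.1 h
    have h2 : nx k e D = D1 := by simp [nx, hD1]
    simp only [List.cons_append, opw, h2]
    rw [ih D1 h1]

end Pool.Agent.Helper60.FF
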